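import Pool.Agent.Helper8_CR.Stmts

/-!
# Module ALG: elimination of `R` and of the bad factors
-/

set_option autoImplicit false

namespace Pool.Agent.Helper8_CR.H86

open PowerSeries

section

variable {M : Type 1} [CommRing M] (L : Mˣ)

/-- all pairs `(a, b)`, `b > 0`, with `a / b ∈ Q` -/
def QS (Q : Set ℚ) : Set (ℤ × ℕ) := {p | 0 < p.2 ∧ (p.1 : ℚ) / p.2 ∈ Q}

theorem gensA_mono {S S' : Set (ℤ × ℕ)} (h : S ⊆ S') : gensA L S ⊆ gensA L S' := by
  rintro x (hx | ⟨p, hp, hx⟩)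
  · exact Or.inl hx
  · exact Or.inr ⟨p, h hp, hx⟩

/-- finitely many generators suffice -/
theorem exists_finset {Q : Set (ℤ × ℕ)} {Z : PowerSeries M}
    (hZ : Z ∈ Algebra.adjoin M (gensA L Q)) :
    ∃ S : Finset (ℤ × ℕ), (S : Set (ℤ × ℕ)) ⊆ Q ∧
      Z ∈ Algebra.adjoin M (gensA L (S : Set (ℤ × ℕ))) := by
  classical
  refine Algebra.adjoin_induction (p := fun Z _ => ∃ S : Finset (ℤ × ℕ),
    (S : Set (ℤ × ℕ)) ⊆ Q ∧ Z ∈ Algebra.adjoin M (gensA L (S : Set (ℤ × ℕ))))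
    ?_ ?_ ?_ ?_ hZ
  · rintro x (hx | ⟨p, hp, hx⟩)
    · exact ⟨∅, by simp, Algebra.subset_adjoin (Or.inl hx)⟩
    · exact ⟨{p}, by simpa using hp, Algebra.subset_adjoin (Or.inr ⟨p, by simp, hx⟩)⟩
  · intro r
    exact ⟨∅, by simp, Subalgebra.algebraMap_mem _ r⟩
  · rintro x y _ _ ⟨S, hS, hx⟩ ⟨T, hT, hy⟩
    refine ⟨S ∪ T, ?_, ?_⟩
    · rw [Finset.coe_union]; exact Set.union_subset hS hT
    · exact add_mem (Algebra.adjoin_mono (gensA_mono L (by simp)) hx)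
        (Algebra.adjoin_mono (gensA_mono L (by simp)) hy)
  · rintro x y _ _ ⟨S, hS, hx⟩ ⟨T, hT, hy⟩
    refine ⟨S ∪ T, ?_, ?_⟩
    · rw [Finset.coe_union]; exact Set.union_subset hS hT
    · exact mul_mem (Algebra.adjoin_mono (gensA_mono L (by simp)) hx)
        (Algebra.adjoin_mono (gensA_mono L (by simp)) hy)

/-- the factor `1 - L ^ a X ^ b` -/
noncomputable def fac (a : ℤ) (b : ℕ) : PowerSeries M :=
  1 - C ((L ^ a : Mˣ) : M) * X ^ b

theorem fac_isUnit (a : ℤ) {b : ℕ} (hb : 0 < b) : IsUnit (fac L a b) := by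
  rw [PowerSeries.isUnit_iff_constantCoeff, fac]
  simp [hb.ne']

theorem X_mem (Q : Set (ℤ × ℕ)) : (X : PowerSeries M) ∈ Algebra.adjoin M (gensA L Q) :=
  Algebra.subset_adjoin (Or.inl rfl)

theorem C_mem (Q : Set (ℤ × ℕ)) (c : M) :
    (C c : PowerSeries M) ∈ Algebra.adjoin M (gensA L Q) :=
  Subalgebra.algebraMap_mem _ c

theorem fac_mem (Q : Set (ℤ × ℕ)) (a : ℤ) (b : ℕ) :
    fac L a b ∈ Algebra.adjoin M (gensA L Q) :=
  sub_mem (one_mem _) (mul_mem (C_mem L Q _) (pow_mem (X_mem L Q) b))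

/-- the inverse of a good factor lies in the ring -/
theorem exists_inv {Q : Set (ℤ × ℕ)} {a : ℤ} {b : ℕ} (hb : 0 < b) (h : (a, b) ∈ Q) :
    ∃ x ∈ Algebra.adjoin M (gensA L Q), x * fac L a b = 1 := by
  obtain ⟨u, hu⟩ := fac_isUnit L a hb
  refine ⟨((u⁻¹ : (PowerSeries M)ˣ) : PowerSeries M), Algebra.subset_adjoin (Or.inr ⟨(a, b), h, ?_⟩),
    ?_⟩
  · show ((u⁻¹ : (PowerSeries M)ˣ) : PowerSeries M) * fac L a b = 1
    rw [← hu, Units.inv_mul]
  · rw [← hu, Units.inv_mul]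

/-- products of bad factors -/
noncomputable def bad (r : ℕ) : Submonoid (PowerSeries M) :=
  Submonoid.closure {x | ∃ b : ℕ, 0 < b ∧ x = fac L ((r * b : ℕ) : ℤ) b}

theorem bad_mem (Q : Set (ℤ × ℕ)) (r : ℕ) {d : PowerSeries M} (hd : d ∈ bad L r) :
    d ∈ Algebra.adjoin M (gensA L Q) := by
  have : bad L r ≤ (Algebra.adjoin M (gensA L Q)).toSubmonoid := by
    rw [bad, Submonoid.closure_le]
    rintro x ⟨b, -, rfl⟩
    exact fac_mem L Q _ _
  exact this hd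

/-- removing the bad factors -/
theorem exists_bad (Q : Set ℚ) (r : ℕ) (S : Finset (ℤ × ℕ))
    (hS : ∀ p ∈ S, 0 < p.2 ∧ ((p.1 : ℚ) / p.2 = r ∨ (p.1 : ℚ) / p.2 ∈ Q)) (E : PowerSeries M)
    (hE : E ∈ Algebra.adjoin M (gensA L (S : Set (ℤ × ℕ)))) :
    ∃ d ∈ bad L r, d * E ∈ Algebra.adjoin M (gensA L (QS Q)) := by
  refine Algebra.adjoin_induction (p := fun E _ =>
    ∃ d ∈ bad L r, d * E ∈ Algebra.adjoin M (gensA L (QS Q))) ?_ ?_ ?_ ?_ hE
  · rintro x (hx | ⟨⟨a, b⟩, hp, hx⟩)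
    · exact ⟨1, one_mem _, by rw [one_mul, hx]; exact X_mem L _⟩
    · obtain ⟨hb, h | h⟩ := hS (a, b) (by simpa using hp)
      · have hb' : ((b : ℕ) : ℚ) ≠ 0 := by exact_mod_cast (ne_of_gt hb)
        have ha : a = ((r * b : ℕ) : ℤ) := by
          have h' : (a : ℚ) / (b : ℚ) = (r : ℚ) := h
          rw [div_eq_iff hb'] at h'
          exact_mod_cast h'
        refine ⟨fac L ((r * b : ℕ) : ℤ) b, Submonoid.subset_closure ⟨b, hb, rfl⟩, ?_⟩
        have : fac L ((r * b : ℕ) : ℤ) b * x = 1 := by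
          rw [← ha, mul_comm]; exact hx
        rw [this]
        exact one_mem _
      · exact ⟨1, one_mem _, by
          rw [one_mul]
          exact Algebra.subset_adjoin (Or.inr ⟨(a, b), ⟨hb, h⟩, hx⟩)⟩
  · intro c
    exact ⟨1, one_mem _, by rw [one_mul]; exact Subalgebra.algebraMap_mem _ c⟩
  · rintro x y _ _ ⟨d, hd, hx⟩ ⟨e, he, hy⟩
    refine ⟨d * e, mul_mem hd he, ?_⟩
    have : d * e * (x + y) = e * (d * x) + d * (e * y) := by ring
    rw [this]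
    exact add_mem (mul_mem (bad_mem L _ r he) hx) (mul_mem (bad_mem L _ r hd) hy)
  · rintro x y _ _ ⟨d, hd, hx⟩ ⟨e, he, hy⟩
    refine ⟨d * e, mul_mem hd he, ?_⟩
    have : d * e * (x * y) = (d * x) * (e * y) := by ring
    rw [this]
    exact mul_mem hx hy

/-- a product of bad factors in a prime ideal -/
theorem exists_fac_of_prod {K : Type 1} [Field K] {A : Subalgebra M (PowerSeries M)}
    (q : A →+* K) (r : ℕ) (hA : ∀ d ∈ bad L r, d ∈ A) (d : PowerSeries M) (hd : d ∈ bad L r) 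
    (h0 : q ⟨d, hA d hd⟩ = 0) :
    ∃ (b : ℕ) (hb : 0 < b), q ⟨fac L ((r * b : ℕ) : ℤ) b,
      hA _ (Submonoid.subset_closure ⟨b, hb, rfl⟩)⟩ = 0 := by
  revert h0
  refine Submonoid.closure_induction (motive := fun d (hd : d ∈ bad L r) =>
    q ⟨d, hA d hd⟩ = 0 → ∃ (b : ℕ) (hb : 0 < b), q ⟨fac L ((r * b : ℕ) : ℤ) b,
      hA _ (Submonoid.subset_closure ⟨b, hb, rfl⟩)⟩ = 0) ?_ ?_ ?_ hd
  · rintro x ⟨b, hb, rfl⟩ h
    exact ⟨b, hb, h⟩
  · intro h
    have : (⟨1, hA 1 (one_mem _)⟩ : A) = 1 := rfl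
    rw [this, map_one] at h
    exact absurd h one_ne_zero
  · intro x y hx hy ihx ihy h
    have : (⟨x * y, hA _ (mul_mem hx hy)⟩ : A) = ⟨x, hA x hx⟩ * ⟨y, hA y hy⟩ := rfl
    have h' : q (⟨x, hA x hx⟩ * ⟨y, hA y hy⟩) = 0 := h
    rw [map_mul, mul_eq_zero] at h'
    rcases h' with h' | h'
    · exact ihx h'
    · exact ihy h'

/-- elimination of `R` -/
theorem elim (Z R : PowerSeries M) (E : ℕ → PowerSeries M)
    (h : ∀ r : ℕ, (1 - C ((L : M) ^ r) * X) * E r =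
      C ((L : M) ^ (r + 1)) * (1 - C ((L : M) ^ r) * X) * Z
        + C (((L : M) ^ (r + 1) - 1) * (L : M) ^ r) * X * R) (r : ℕ) :
    C ((L : M) ^ (2 * r + 2)) * (C (L : M) - X) * Z =
      C ((∑ i ∈ Finset.range (r + 2), (L : M) ^ i) * L) * ((1 - C ((L : M) ^ r) * X) * E r) -
      C (∑ i ∈ Finset.range (r + 1), (L : M) ^ i) *
        ((1 - C ((L : M) ^ (r + 1)) * X) * E (r + 1)) := by
  rw [h r, h (r + 1)]
  have e1 : (L : M) ^ (r + 1) - 1 = (∑ i ∈ Finset.range (r + 1), (L : M) ^ i) * ((L : M) - 1) :=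
    (geom_sum_mul _ _).symm
  have e2 : (L : M) ^ (r + 1 + 1) - 1 =
      (∑ i ∈ Finset.range (r + 2), (L : M) ^ i) * ((L : M) - 1) :=
    (geom_sum_mul _ _).symm
  have e3 : ∑ i ∈ Finset.range (r + 2), (L : M) ^ i =
      (∑ i ∈ Finset.range (r + 1), (L : M) ^ i) + (L : M) ^ (r + 1) := Finset.sum_range_succ _ _
  have e4 : ∑ i ∈ Finset.range (r + 2), (L : M) ^ i =
      (L : M) * (∑ i ∈ Finset.range (r + 1), (L : M) ^ i) + 1 := geom_sum_succ
  generalize (∑ i ∈ Finset.range (r + 2), (L : M) ^ i) = s2 at *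
  generalize (∑ i ∈ Finset.range (r + 1), (L : M) ^ i) = s1 at *
  rw [e1, e2]
  have c3 : (C s2 : PowerSeries M) = C s1 + C (L : M) ^ (r + 1) := by
    rw [e3, map_add, map_pow]
  have c4 : (C s2 : PowerSeries M) = C (L : M) * C s1 + 1 := by
    rw [e4, map_add, map_mul, map_one]
  simp only [map_mul, map_pow, map_sub, map_one]
  generalize (C (L : M) : PowerSeries M) = l at *
  generalize (C s2 : PowerSeries M) = t2 at *
  generalize (C s1 : PowerSeries M) = t1 at *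
  linear_combination (l ^ (r + 2) * Z) * (-c3) + (l ^ (2 * r + 2) * X * Z) * c4
    
end

theorem alg : AlgStmt := by
  intro M _ L Q hQ Z R E hE r₀ hS
  set A := Algebra.adjoin M (gensA L (QS Q)) with hA
  suffices hZ : Z ∈ A by
    obtain ⟨S, h1, h2⟩ := exists_finset L hZ
    exact ⟨S, fun p hp => h1 hp, h2⟩
  -- the products of bad factors
  have key : ∀ r : ℕ, r₀ ≤ r → r ≤ r₀ + 2 → ∃ d ∈ bad L r, ∃ e ∈ bad L (r + 1),
      d * e * Z ∈ A := by
    intro r h1 h2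
    obtain ⟨S, hS1, hS2⟩ := hS r h1 (by omega)
    obtain ⟨S', hS1', hS2'⟩ := hS (r + 1) (by omega) (by omega)
    obtain ⟨d, hd, hdE⟩ := exists_bad L Q r S hS1 _ hS2
    obtain ⟨e, he, heE⟩ := exists_bad L Q (r + 1) S' (by simpa using hS1') _ hS2'
    refine ⟨d, hd, e, he, ?_⟩
    have hel := elim L Z R E hE r
    -- the unit
    obtain ⟨x, hx, hx1⟩ := exists_inv L (Q := QS Q) (a := -1) (b := 1) one_pos
      ⟨one_pos, by simpa using hQ⟩
    have hu : C ((L ^ (-(2 * r + 3 : ℤ)) : Mˣ) : M) * x *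
        (C ((L : M) ^ (2 * r + 2)) * (C (L : M) - X)) = 1 := by
      have h3 : (C (L : M) - X : PowerSeries M) = C (L : M) * fac L (-1) 1 := by
        rw [fac, mul_sub, mul_one, ← mul_assoc, ← map_mul, pow_one, zpow_neg_one, Units.mul_inv,
          map_one, one_mul]
      have h4 : (((L ^ (-(2 * r + 3 : ℤ)) : Mˣ) : M)) * ((L : M) ^ (2 * r + 2) * (L : M)) = 1 := by
        rw [← pow_succ, ← Units.val_pow_eq_pow_val, ← Units.val_mul, zpow_neg]
        have : (L ^ (2 * (r : ℤ) + 3) : Mˣ) = L ^ (2 * r + 2 + 1) := by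
          rw [← zpow_natCast]
          congr 1
        rw [this, inv_mul_cancel, Units.val_one]
      calc C ((L ^ (-(2 * r + 3 : ℤ)) : Mˣ) : M) * x * (C ((L : M) ^ (2 * r + 2)) * (C (L : M) - X))
          = C ((L ^ (-(2 * r + 3 : ℤ)) : Mˣ) : M) * (C ((L : M) ^ (2 * r + 2)) * C (L : M)) *
            (x * fac L (-1) 1) := by rw [h3]; ring
        _ = 1 := by rw [hx1, mul_one, ← map_mul, ← map_mul, h4, map_one]
    have : d * e * Z = C ((L ^ (-(2 * r + 3 : ℤ)) : Mˣ) : M) * x *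
        (C ((∑ i ∈ Finset.range (r + 2), (L : M) ^ i) * L) * (1 - C ((L : M) ^ r) * X) * e *
          (d * E r) -
        C (∑ i ∈ Finset.range (r + 1), (L : M) ^ i) *
          (1 - C ((L : M) ^ (r + 1)) * X) * d * (e * E (r + 1))) := by
      calc d * e * Z = d * e * ((C ((L ^ (-(2 * r + 3 : ℤ)) : Mˣ) : M) * x *
            (C ((L : M) ^ (2 * r + 2)) * (C (L : M) - X))) * Z) := by rw [hu, one_mul]
        _ = C ((L ^ (-(2 * r + 3 : ℤ)) : Mˣ) : M) * x * d * e *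
            (C ((L : M) ^ (2 * r + 2)) * (C (L : M) - X) * Z) := by ring
        _ = _ := by rw [hel]; ring
    rw [this]
    have hpol : ∀ c : M, (1 - C c * X : PowerSeries M) ∈ A := fun c =>
      sub_mem (one_mem _) (mul_mem (C_mem L _ _) (X_mem L _))
    exact mul_mem (mul_mem (C_mem L _ _) hx) (sub_mem
      (mul_mem (mul_mem (mul_mem (C_mem L _ _) (hpol _)) (bad_mem L _ _ he)) hdE)
      (mul_mem (mul_mem (mul_mem (C_mem L _ _) (hpol _)) (bad_mem L _ _ hd)) heE))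
  -- the ideal of denominators
  let J : Ideal A := 
    { carrier := {x | (x : PowerSeries M) * Z ∈ A}
      add_mem' := fun {x y} hx hy => by
        show ((x + y : A) : PowerSeries M) * Z ∈ A
        rw [Subalgebra.coe_add, add_mul]
        exact add_mem hx hy
      zero_mem' := by
        show ((0 : A) : PowerSeries M) * Z ∈ A
        rw [Subalgebra.coe_zero, zero_mul]
        exact zero_mem _
      smul_mem' := fun c x hx => by
        show ((c • x : A) : PowerSeries M) * Z ∈ A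
        rw [smul_eq_mul, Subalgebra.coe_mul, mul_assoc]
        exact mul_mem c.2 hx }
  by_contra hZ
  have hJ : J ≠ ⊤ := by
    intro h
    have : (1 : A) ∈ J := by rw [h]; trivial
    have h1 : ((1 : A) : PowerSeries M) * Z ∈ A := this
    rw [Subalgebra.coe_one, one_mul] at h1
    exact hZ h1
  obtain ⟨m, hm, hJm⟩ := Ideal.exists_le_maximal J hJ
  let _ : Field (A ⧸ m) := Ideal.Quotient.field m
  have bm : ∀ (r : ℕ), ∀ d ∈ bad L r, d ∈ A := fun r d hd => bad_mem L _ r hd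
  -- a bad factor in the maximal ideal
  have main : ∀ r : ℕ, r₀ ≤ r → r ≤ r₀ + 2 → ∃ (e b : ℕ), 0 < b ∧ (e = r ∨ e = r + 1) ∧
      (Ideal.Quotient.mk m ⟨C (L : M), C_mem L _ _⟩) ^ (e * b) *
        (Ideal.Quotient.mk m ⟨X, X_mem L _⟩) ^ b = 1 := by
    intro r h1 h2
    obtain ⟨d, hd, e, he, hde⟩ := key r h1 h2
    have h3 : (⟨d, bm r d hd⟩ * ⟨e, bm (r + 1) e he⟩ : A) ∈ m := hJm hde
    have h4 : Ideal.Quotient.mk m ⟨d, bm r d hd⟩ * Ideal.Quotient.mk m ⟨e, bm (r + 1) e he⟩ = 0 := by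
      rw [← map_mul]
      exact Ideal.Quotient.eq_zero_iff_mem.2 h3
    have fin : ∀ (s b : ℕ) (hb : 0 < b), Ideal.Quotient.mk m (⟨fac L ((s * b : ℕ) : ℤ) b,
      bm s _ (Submonoid.subset_closure ⟨b, hb, rfl⟩)⟩ : A) = 0 → 
        (Ideal.Quotient.mk m ⟨C (L : M), C_mem L _ _⟩) ^ (s * b) *
        (Ideal.Quotient.mk m ⟨X, X_mem L _⟩) ^ b = 1 := by
      intro s b hb h
      have : (⟨fac L ((s * b : ℕ) : ℤ) b,
          bm s _ (Submonoid.subset_closure ⟨b, hb, rfl⟩)⟩ : A) =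
          1 - ⟨C (L : M), C_mem L _ _⟩ ^ (s * b) * ⟨X, X_mem L _⟩ ^ b := by
        apply Subtype.ext
        show fac L ((s * b : ℕ) : ℤ) b = 1 - C (L : M) ^ (s * b) * X ^ b
        rw [fac, zpow_natCast, Units.val_pow_eq_pow_val, map_pow]
      rw [this, map_sub, map_one, map_mul, map_pow, map_pow, sub_eq_zero] at h
      exact h.symm
    rcases mul_eq_zero.1 h4 with h5 | h5
    · obtain ⟨b, hb, h6⟩ := exists_fac_of_prod L (Ideal.Quotient.mk m) r (bm r) d hd h5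
      exact ⟨r, b, hb, Or.inl rfl, fin r b hb h6⟩
    · obtain ⟨b, hb, h6⟩ := exists_fac_of_prod L (Ideal.Quotient.mk m) (r + 1) (bm (r + 1)) e he h5
      exact ⟨r + 1, b, hb, Or.inr rfl, fin (r + 1) b hb h6⟩
  obtain ⟨e, b, hb, he, h1⟩ := main r₀ le_rfl (by omega)
  obtain ⟨e', b', hb', he', h2⟩ := main (r₀ + 2) (by omega) le_rfl
  obtain ⟨c, hc, rfl⟩ : ∃ c, 0 < c ∧ e' = e + c := ⟨e' - e, by omega, by omega⟩
  set l := Ideal.Quotient.mk m (⟨C (L : M), C_mem L _ _⟩ : A) with hl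
  set x := Ideal.Quotient.mk m (⟨X, X_mem L _⟩ : A) with hx
  -- powers
  have p1 : (l ^ e * x) ^ b = 1 := by rw [mul_pow, ← pow_mul]; exact h1
  have p2 : (l ^ (e + c) * x) ^ b' = 1 := by rw [mul_pow, ← pow_mul]; exact h2
  have p3 : (l ^ e * x) ^ (b * b') = 1 := by rw [pow_mul, p1, one_pow]
  have p4 : (l ^ (e + c) * x) ^ (b * b') = 1 := by rw [mul_comm b b', pow_mul, p2, one_pow]
  have p5 : l ^ (c * (b * b')) = 1 := by
    have : (l ^ (e + c) * x) ^ (b * b') = l ^ (c * (b * b')) * (l ^ e * x) ^ (b * b') := by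
      have h3 : l ^ (e + c) * x = l ^ c * (l ^ e * x) := by ring
      rw [h3, mul_pow, ← pow_mul]
    rw [p4, p3, mul_one] at this
    exact this.symm
  set n := b * b' * (c * (b * b')) with hn
  have hnpos : 0 < n := by positivity
  have p6 : x ^ n = 1 := by
    have h3 : (l ^ e * x) ^ n = 1 := by rw [hn, pow_mul, p3, one_pow]
    have h4 : (l ^ e) ^ n = 1 := by
      have : (l ^ e) ^ n = (l ^ (c * (b * b'))) ^ (e * (b * b')) := by
        rw [hn]; ring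
      rw [this, p5, one_pow]
    rw [mul_pow, h4, one_mul] at h3
    exact h3
  have p7 : l ^ n = 1 := by
    have : l ^ n = (l ^ (c * (b * b'))) ^ (b * b') := by
      rw [hn]; ring
    rw [this, p5, one_pow]
  -- the good factor is a unit
  obtain ⟨y, hy, hy1⟩ := exists_inv L (Q := QS Q) (a := -(n : ℤ)) (b := n) hnpos
    ⟨hnpos, by
      have : ((-(n : ℤ) : ℤ) : ℚ) / (n : ℚ) = -1 := by
        have hn' : (n : ℚ) ≠ 0 := by exact_mod_cast hnpos.ne'
        push_cast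
        rw [neg_div, div_self hn']
      show ((-(n : ℤ) : ℤ) : ℚ) / (n : ℚ) ∈ Q
      rw [this]; exact hQ⟩
  have hq : Ideal.Quotient.mk m (⟨fac L (-(n : ℤ)) n, fac_mem L _ _ _⟩ : A) = 0 := by
    have h3 : (⟨C (L : M), C_mem L _ _⟩ ^ n * ⟨fac L (-(n : ℤ)) n, fac_mem L _ _ _⟩ : A) =
        ⟨C (L : M), C_mem L _ _⟩ ^ n - ⟨X, X_mem L _⟩ ^ n := by
      apply Subtype.ext
      show C (L : M) ^ n * fac L (-(n : ℤ)) n = C (L : M) ^ n - X ^ n
      rw [fac, mul_sub, mul_one, ← mul_assoc, ← map_pow, ← map_mul, zpow_neg, zpow_natCast,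
        ← Units.val_pow_eq_pow_val, Units.mul_inv, map_one, one_mul]
    have h4 := congrArg (Ideal.Quotient.mk m) h3
    rw [map_mul, map_sub, map_pow, map_pow, ← hl, ← hx, p6, p7, one_mul, sub_self] at h4
    exact h4
  have h5 : (⟨y, hy⟩ * ⟨fac L (-(n : ℤ)) n, fac_mem L _ _ _⟩ : A) = 1 := Subtype.ext hy1
  have h6 := congrArg (Ideal.Quotient.mk m) h5
  rw [map_mul, hq, mul_zero, map_one] at h6
  exact zero_ne_one h6

end Pool.Agent.Helper8_CR.H86
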